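import Pool.Agent.W998.KG.Stm3

/-! Project KG, part DEG: counting at the vertices of a closed elementary set. -/

set_option autoImplicit false

namespace Pool.Agent.W592.KG.DEG

open Pool.Agent.Results.MP_633d19_co.SmallDegree
open Pool.Agent.Results.MP_633d19_co.SmallDegree.MGraph
open Pool.Agent.W998.KG

variable {V E : Type}

theorem card_ms' [Finite E] {G : MGraph V E} {k Δ : ℕ} {c : E → Option (Fin k)} {α β : Fin k}
    {u : V} (hdeg : G.degree u ≤ Δ) (hα : ¬ G.Miss c u α) (hβ : ¬ G.Miss c u β) :
    k ≤ (G.ms c α β u).card + Δ := by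
  classical
  have := Fintype.ofFinite E
  set A := Finset.univ.filter (fun e => u ∈ G.ends e) with hA
  have h2 : A.card ≤ Δ := by
    rw [hA, ← degree_eq]
    exact hdeg
  set P := Finset.univ.filter (fun a : Fin k => ¬ G.Miss c u a) with hP
  have h3 : P.card ≤ A.card := by
    have : P ⊆ A.image (fun e => (c e).getD α) := by
      intro a ha
      rw [hP, Finset.mem_filter] at ha
      have ha := ha.2
      unfold Miss at ha
      push Not at ha
      obtain ⟨e, he, hea⟩ := ha
      rw [Finset.mem_image]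
      refine ⟨e, ?_, by simp [hea]⟩
      rw [hA, Finset.mem_filter]
      exact ⟨Finset.mem_univ _, he⟩
    exact (Finset.card_le_card this).trans Finset.card_image_le
  have h4 : (Finset.univ : Finset (Fin k)) ⊆ G.ms c α β u ∪ P := by
    intro a _
    simp only [Finset.mem_union, mem_ms, hP, Finset.mem_filter, Finset.mem_univ, true_and]
    by_cases h : G.Miss c u a
    · left
      refine ⟨?_, ?_, h⟩
      · rintro rfl
        exact hα h
      · rintro rfl
        exact hβ h
    · right
      exact h
  have h5 := Finset.card_le_card h4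
  rw [Finset.card_univ, Fintype.card_fin] at h5
  have h6 := Finset.card_union_le (G.ms c α β u) P
  omega

theorem main : PartDEG := by
  classical
  intro V E _ _ G k Δ T μ hk hT hdeg hmult l n y f h pr α β c hl hodd hln H helem hcl i hi
  have := Fintype.ofFinite E
  set A : Finset ℕ := (Finset.range (n + 1)).filter (fun j => ∃ e, G.ends e = s(y i, y j)) with hA
  have hAmem : ∀ j, j ∈ A ↔ j ≤ n ∧ ∃ e, G.ends e = s(y i, y j) := fun j => by
    rw [hA, Finset.mem_filter, Finset.mem_range, Nat.lt_succ_iff]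
  refine ⟨A, fun j hj => (hAmem j).1 hj, ?_⟩
  set Ed : Finset E := Finset.univ.filter (fun e => ∃ j ≤ n, G.ends e = s(y i, y j)) with hEd
  have hEdmem : ∀ e, e ∈ Ed ↔ ∃ j ≤ n, G.ends e = s(y i, y j) := fun e => by
    rw [hEd, Finset.mem_filter]
    simp only [Finset.mem_univ, true_and]
  -- upper bound
  have hup : Ed.card ≤ A.card * μ := by
    have h1 : Ed ⊆ A.biUnion (fun j => Finset.univ.filter (fun e => G.ends e = s(y i, y j))) := by
      intro e he
      obtain ⟨j, hj, hej⟩ := (hEdmem e).1 he
      exact Finset.mem_biUnion.2 ⟨j, (hAmem j).2 ⟨hj, e, hej⟩,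
        Finset.mem_filter.2 ⟨Finset.mem_univ _, hej⟩⟩
    refine (Finset.card_le_card h1).trans (Finset.card_biUnion_le_card_mul _ _ _ fun j hj => ?_)
    have h2 : y i ≠ y j := fun h3 => by
      obtain ⟨e, he⟩ := ((hAmem j).1 hj).2
      rw [← h3] at he
      exact G.loopless e (by rw [he]; exact Sym2.mk_isDiag_iff.2 rfl)
    have h3 := hmult (y i) (y j) h2
    unfold mult at h3
    rw [Nat.card_eq_fintype_card, Fintype.card_subtype] at h3
    exact h3
  refine le_trans ?_ hup
  -- the colours
  set S : Finset (Fin k) :=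
    ((Finset.range (n + 1)).erase i).biUnion (fun j => G.ms c α β (y j)) with hS
  have hrange : ∀ j, j ∈ (Finset.range (n + 1)).erase i ↔ j ≠ i ∧ j ≤ n := fun j => by
    rw [Finset.mem_erase, Finset.mem_range, Nat.lt_succ_iff]
  have hScard : n * T ≤ S.card := by
    rw [hS, Finset.card_biUnion]
    · have h1 : ∑ _j ∈ (Finset.range (n + 1)).erase i, T ≤
          ∑ j ∈ (Finset.range (n + 1)).erase i, (G.ms c α β (y j)).card := by
        refine Finset.sum_le_sum fun j hj => ?_
        obtain ⟨_, hjn⟩ := (hrange j).1 hj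
        by_cases hjl : j < l
        · have := H.st.card_ms hl hdeg hjl
          omega
        · obtain ⟨h2, h3⟩ := helem.2 j (not_lt.1 hjl) hjn
          have := card_ms' (hdeg (y j)) h2 h3
          omega
      rw [Finset.sum_const, Finset.card_erase_of_mem (Finset.mem_range.2 (Nat.lt_succ_of_le hi)),
        Finset.card_range, smul_eq_mul, Nat.succ_sub_one] at h1
      exact h1
    · intro i' hi' j hj hij
      rw [Finset.mem_coe, hrange] at hi' hj
      rw [Function.onFun, Finset.disjoint_left]
      intro a ha ha'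
      rw [mem_ms] at ha ha'
      rcases Nat.lt_or_gt_of_ne hij with h1 | h1
      · exact helem.1 i' j h1 hj.2 a ha.1 ha.2.1 ha.2.2 ha'.2.2
      · exact helem.1 j i' h1 hi'.2 a ha.1 ha.2.1 ha'.2.2 ha.2.2
  have hSmem : ∀ a ∈ S, a ≠ α ∧ a ≠ β ∧ ∃ j, j ≠ i ∧ j ≤ n ∧ G.Miss c (y j) a := by
    intro a ha
    obtain ⟨j, hj, ha⟩ := Finset.mem_biUnion.1 ha
    rw [mem_ms] at ha
    obtain ⟨h1, h2⟩ := (hrange j).1 hj
    exact ⟨ha.1, ha.2.1, j, h1, h2, ha.2.2⟩
  have hin : ∀ e a, y i ∈ G.ends e → c e = some a → (∃ j ≤ n, G.Miss c (y j) a) → e ∈ Ed := by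
    intro e a he hea hm
    rw [hEdmem]
    exact hcl i hi e a he hea hm
  set Ed1 : Finset E := Ed.filter (fun e => ∃ a ∈ S, c e = some a) with hEd1
  have h1 : S.card ≤ Ed1.card := by
    have h2 : S ⊆ Ed1.image (fun e => (c e).getD α) := by
      intro a ha
      obtain ⟨haα, haβ, j, hji, hj, hm⟩ := hSmem a ha
      have h3 : ¬ G.Miss c (y i) a := fun h4 => by
        rcases Nat.lt_or_gt_of_ne hji with h5 | h5
        · exact helem.1 j i h5 hi a haα haβ hm h4
        · exact helem.1 i j h5 hj a haα haβ h4 hm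
      unfold Miss at h3
      push Not at h3
      obtain ⟨e, he, hea⟩ := h3
      rw [Finset.mem_image]
      refine ⟨e, ?_, by simp [hea]⟩
      rw [hEd1, Finset.mem_filter]
      exact ⟨hin e a he hea ⟨j, hj, hm⟩, a, ha, hea⟩
    exact (Finset.card_le_card h2).trans Finset.card_image_le
  -- two more edges
  have h2 : ∃ e1 e2 : E, e1 ≠ e2 ∧ e1 ∈ Ed ∧ e2 ∈ Ed ∧ (∀ a ∈ S, c e1 ≠ some a) ∧
      ∀ a ∈ S, c e2 ≠ some a := by
    by_cases hc : i < l
    · have finj := G.edge_inj hl H.st.inj H.st.ed
      have e1 := H.st.ed i hc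
      obtain ⟨p, hp, hpn⟩ : ∃ p, p < l ∧ nx l p = i := by
        by_cases h0 : i = 0
        · refine ⟨l - 1, by omega, ?_⟩
          unfold nx
          split_ifs <;> omega
        · refine ⟨i - 1, by omega, ?_⟩
          unfold nx
          split_ifs <;> omega
      have e2 := H.st.ed p hp
      rw [hpn] at e2
      have hnx : nx l i < l := nx_lt hc
      refine ⟨f i, f p, fun hf => ?_, ?_, ?_, ?_, ?_⟩
      · have h5 := finj i hc p hp hf
        rw [← h5] at hpn
        unfold nx at hpn
        split_ifs at hpn <;> omega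
      · rw [hEdmem]
        exact ⟨nx l i, by omega, e1⟩
      · rw [hEdmem]
        exact ⟨p, by omega, by rw [e2, Sym2.eq_swap]⟩
      · intro a _
        rw [(H.st.none_iff _).2 ⟨i, hc, rfl⟩]
        exact (Option.some_ne_none a).symm
      · intro a _
        rw [(H.st.none_iff _).2 ⟨p, hp, rfl⟩]
        exact (Option.some_ne_none a).symm
    · obtain ⟨hα, hβ⟩ := helem.2 i (not_lt.1 hc) hi
      unfold Miss at hα hβ
      push Not at hα hβ
      obtain ⟨e1, he1, hc1⟩ := hα
      obtain ⟨e2, he2, hc2⟩ := hβ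
      refine ⟨e1, e2, ?_, ?_, ?_, ?_, ?_⟩
      · rintro rfl
        rw [hc1] at hc2
        exact H.st.ne (Option.some.inj hc2)
      · exact hin e1 α he1 hc1 ⟨0, by omega, H.st.ma 0 (by omega)⟩
      · exact hin e2 β he2 hc2 ⟨0, by omega, H.st.mb 0 (by omega)⟩
      · intro a ha hea
        rw [hc1] at hea
        exact (hSmem a ha).1 (Option.some.inj hea).symm
      · intro a ha hea
        rw [hc2] at hea
        exact (hSmem a ha).2.1 (Option.some.inj hea).symm
  obtain ⟨e1, e2, hne, he1, he2, hc1, hc2⟩ := h2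
  have h3 : Ed1 ∪ {e1, e2} ⊆ Ed := by
    intro e he
    rw [Finset.mem_union] at he
    rcases he with he | he
    · exact (Finset.mem_filter.1 he).1
    · simp only [Finset.mem_insert, Finset.mem_singleton] at he
      rcases he with rfl | rfl
      · exact he1
      · exact he2
  have h4 : Disjoint Ed1 {e1, e2} := by
    rw [Finset.disjoint_left]
    intro e he he'
    obtain ⟨a, ha, hea⟩ := (Finset.mem_filter.1 he).2
    simp only [Finset.mem_insert, Finset.mem_singleton] at he'
    rcases he' with rfl | rfl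
    · exact hc1 a ha hea
    · exact hc2 a ha hea
  have h5 := Finset.card_le_card h3
  rw [Finset.card_union_of_disjoint h4, Finset.card_pair hne] at h5
  omega

end Pool.Agent.W592.KG.DEG
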